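import Mathlib
import Pool.Agent.Q260.LS.Chart

/-!
# MP_0d7d6c_co, Question 1: the limit is `1` for every non-complete `G₀`

`P(G)` is the `(n-2)`-dimensional volume of the set of the tuples of sum one realised by `G` as
non-zero part of the spectrum of a weighted Laplacian, divided by that of the simplex of all
tuples of sum one.  If `G_{n+1}` is the suspension of `G_n` and `G_0` is not complete, then
`P(G_n) → 1`.
-/

open MeasureTheory Filter Topology
open Pool.Agent.Q260.LS

namespace Pool.Agent.Results.MP_0d7d6c_co.SuspensionLimit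

/-- The suspension of `G`: one new vertex `none`, adjacent to all vertices of `G`. -/
def suspension {V : Type} (G : SimpleGraph V) : SimpleGraph (Option V) where
  Adj
    | some a, some b => G.Adj a b
    | some _, none => True
    | none, some _ => True
    | none, none => False
  symm := ⟨by
    rintro (_ | a) (_ | b) h
    · exact h
    · trivial
    · trivial
    · exact G.symm.symm _ _ h⟩
  loopless := ⟨by
    rintro (_ | a) h
    · exact h
    · exact G.loopless.irrefl a h⟩

/-- The simplex `R` of the `m`-tuples of nonnegative reals with sum one. -/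
def simplex (m : ℕ) : Set (EuclideanSpace ℝ (Fin m)) := {x | (∀ i, 0 ≤ x i) ∧ ∑ i, x i = 1}

/-- The tuples of `R` realisable by `G`. -/
def realizableSet {V : Type} [Fintype V] (G : SimpleGraph V) (m : ℕ) :
    Set (EuclideanSpace ℝ (Fin m)) :=
  {x | x ∈ simplex m ∧ Realizable G (Finset.univ.val.map fun i => x i)}

/-- Ratio of the `k`-dimensional volumes (Hausdorff measures in the Euclidean space `ℝ^m`) of the
set of the realisable tuples in `R` and of `R`. -/
noncomputable def ratio {V : Type} [Fintype V] (G : SimpleGraph V) (m k : ℕ) : ℝ :=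
  (μH[(k : ℝ)] : Measure (EuclideanSpace ℝ (Fin m))).real (realizableSet G m) /
    (μH[(k : ℝ)] : Measure (EuclideanSpace ℝ (Fin m))).real (simplex m)

/-- `P(G)`: ratio of the `(n-2)`-dimensional volumes of the set of the realisable
`(n-1)`-tuples in `R` and of `R`, for a graph with `n` vertices. -/
noncomputable def P {V : Type} [Fintype V] (G : SimpleGraph V) : ℝ :=
  ratio G (Fintype.card V - 1) (Fintype.card V - 2)

lemma simplex_eq (d : ℕ) : simplex (d + 1) = chart '' (DD d 1) := by
  ext x
  constructor
  · rintro ⟨h1, h2⟩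
    rw [Fin.sum_univ_castSucc] at h2
    refine ⟨fun i => x i.castSucc, ⟨fun i => h1 _, by linarith [h1 (Fin.last d)]⟩, ?_⟩
    ext k
    refine Fin.lastCases ?_ (fun i => ?_) k
    · simp only [chart, tup, Fin.snoc_last]
      linarith
    · simp only [chart, tup, Fin.snoc_castSucc]
  · rintro ⟨y, ⟨h1, h2⟩, rfl⟩
    refine ⟨fun k => ?_, ?_⟩
    · refine Fin.lastCases ?_ (fun i => ?_) k
      · simp only [chart, tup, Fin.snoc_last]
        linarith
      · simp only [chart, tup, Fin.snoc_castSucc]
        exact h1 i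
    · rw [Fin.sum_univ_castSucc]
      simp only [chart, tup, Fin.snoc_castSucc, Fin.snoc_last]
      ring

lemma realizableSet_eq {V : Type} [Fintype V] (G : SimpleGraph V) (d : ℕ) :
    realizableSet G (d + 1) =
      chart '' {x | x ∈ DD d 1 ∧ Realizable G (Finset.univ.val.map (tup x))} := by
  ext x
  constructor
  · rintro ⟨h1, h2⟩
    rw [simplex_eq] at h1
    obtain ⟨y, hy, rfl⟩ := h1
    exact ⟨y, ⟨hy, h2⟩, rfl⟩
  · rintro ⟨y, ⟨h1, h2⟩, rfl⟩
    refine ⟨?_, h2⟩
    rw [simplex_eq]
    exact ⟨y, h1, rfl⟩

lemma P_eq {V : Type} [Fintype V] (G : SimpleGraph V) (d : ℕ) (hd : Fintype.card V = d + 2) :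
    P G = volume.real {x : Fin d → ℝ | x ∈ DD d 1 ∧ Realizable G (Finset.univ.val.map (tup x))} /
      volume.real (DD d 1) := by
  unfold P
  have e1 : Fintype.card V - 1 = d + 1 := by omega
  have e2 : Fintype.card V - 2 = d := by omega
  rw [e1, e2]
  unfold ratio
  rw [simplex_eq, realizableSet_eq]
  obtain ⟨c, hc, h⟩ := haus d
  rw [h, h, mul_div_mul_left _ _ hc.ne']

/-- the vertices of the iterated suspensions -/
lemma vertices (V : ℕ → Type) [∀ n, Fintype (V n)] (G : ∀ n, SimpleGraph (V n))
    (hG : ∀ n, Nonempty (suspension (G n) ≃g G (n + 1))) :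
    ∀ n, ∃ e : V n ≃ V 0 ⊕ Fin n, ∀ u v, u ≠ v → ¬ (G n).Adj u v →
      ∃ a b, e u = Sum.inl a ∧ e v = Sum.inl b := by
  intro n
  induction n with
  | zero =>
    refine ⟨(Equiv.sumEmpty (V 0) (Fin 0)).symm, fun u v _ _ => ⟨u, v, rfl, rfl⟩⟩
  | succ n ih =>
    obtain ⟨e, he⟩ := ih
    obtain ⟨φ⟩ := hG n
    let g : Option (V 0 ⊕ Fin n) ≃ V 0 ⊕ Fin (n + 1) :=
      { toFun := fun x => match x with
          | none => Sum.inr (Fin.last n)
          | some (Sum.inl a) => Sum.inl a
          | some (Sum.inr j) => Sum.inr j.castSucc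
        invFun := fun x => match x with
          | Sum.inl a => some (Sum.inl a)
          | Sum.inr k => Fin.lastCases (motive := fun _ => Option (V 0 ⊕ Fin n)) none
              (fun j => some (Sum.inr j)) k
        left_inv := by
          rintro (_ | (a | j))
          · simp
          · rfl
          · simp
        right_inv := by
          rintro (a | k)
          · rfl
          · refine Fin.lastCases ?_ (fun j => ?_) k
            · simp
            · simp }
    refine ⟨(φ.toEquiv.symm.trans (Equiv.optionCongr e)).trans g, ?_⟩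
    intro u v huv hadj
    have h1 : ¬ (suspension (G n)).Adj (φ.symm u) (φ.symm v) := by
      rw [← φ.map_adj_iff, φ.apply_symm_apply, φ.apply_symm_apply]
      exact hadj
    have h2 : φ.symm u ≠ φ.symm v := fun h => huv (φ.symm.injective h)
    have h3 : ∀ w, ((φ.toEquiv.symm.trans (Equiv.optionCongr e)).trans g) w =
        g (Option.map e (φ.symm w)) := fun w => rfl
    rw [h3, h3]
    rcases hu : φ.symm u with _ | u' <;> rcases hv : φ.symm v with _ | v'
    · exact absurd (hu.trans hv.symm) h2
    · rw [hu, hv] at h1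
      exact absurd trivial h1
    · rw [hu, hv] at h1
      exact absurd trivial h1
    · rw [hu, hv] at h1 h2
      obtain ⟨a, b, ha, hb⟩ := he u' v' (fun h => h2 (by rw [h])) h1
      refine ⟨a, b, ?_, ?_⟩
      · rw [Option.map_some, ha]
        rfl
      · rw [Option.map_some, hb]
        rfl

/-- **Theorem.** If `G₀` is not complete and `G_{n+1}` is the suspension of `G_n` for every `n`,
then `P(G_n)` tends to `1`. -/
theorem result (V : ℕ → Type) [∀ n, Fintype (V n)] (G : ∀ n, SimpleGraph (V n)) (h0 : G 0 ≠ ⊤)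
    (hG : ∀ n, Nonempty (suspension (G n) ≃g G (n + 1))) :
    Tendsto (fun n => P (G n)) atTop (𝓝 1) := by
  classical
  obtain ⟨v0⟩ : Nonempty (V 0) := by
    by_contra h
    rw [not_nonempty_iff] at h
    apply h0
    ext a
    exact (h.false a).elim
  set p := Fintype.card (V 0) with hp
  have hp1 : 1 ≤ p := Fintype.card_pos_iff.2 ⟨v0⟩
  obtain ⟨μ0, η, hη, hμ0, hμ1, hstar⟩ := star_open p hp1
  rw [Metric.tendsto_atTop]
  intro ε hε
  set α : ℝ := min (η / 8) (ε / (16 * (p + 1))) with hα
  have hα0 : 0 < α := lt_min (by positivity) (by positivity)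
  have hα1 : α ≤ η / 8 := min_le_left _ _
  have hα2 : α * (16 * (p + 1)) ≤ ε := by
    rw [← le_div_iff₀ (by positivity)]
    exact min_le_right _ _
  have hgood := good (wa μ0 α) (wb μ0 η α) (by
    rintro (_ | r)
    · exact hα0.le
    · exact (hη.trans (hμ0 r)).le) (by
    rintro (_ | r)
    · simp only [wa, wb]; linarith
    · simp only [wa, wb]; linarith) (τ := (p + 1) * (2 * α)) (by positivity)
    (ε := ε / 4) (by positivity)
  obtain ⟨D0, hD0⟩ := eventually_atTop.1 hgood
  refine ⟨D0 + 2, fun n hn => ?_⟩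
  obtain ⟨b, rfl⟩ : ∃ b, n = b + 2 := ⟨n - 2, by omega⟩
  obtain ⟨e, he⟩ := vertices V G hG (b + 2)
  set d := p + b with hd
  have hcard : Fintype.card (V (b + 2)) = d + 2 := by
    rw [Fintype.card_congr e, Fintype.card_sum, Fintype.card_fin, hd, hp]
    ring
  rw [P_eq (G (b + 2)) d hcard]
  have hg := hD0 d (by omega)
  have hDpos := DD_pos d
  let q : V 0 ≃ Fin p := Fintype.equivFin (V 0)
  let E : V 0 ⊕ Fin (b + 2) ≃ Option (Fin p) ⊕ Fin (b + 1) :=
    { toFun := fun x => match x with
        | Sum.inl a => Sum.inl (some (q a))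
        | Sum.inr k => Fin.lastCases (motive := fun _ => Option (Fin p) ⊕ Fin (b + 1))
            (Sum.inl none) (fun j => Sum.inr j) k
      invFun := fun x => match x with
        | Sum.inl (some r) => Sum.inl (q.symm r)
        | Sum.inl none => Sum.inr (Fin.last (b + 1))
        | Sum.inr j => Sum.inr j.castSucc
      left_inv := by
        rintro (a | k)
        · simp
        · refine Fin.lastCases ?_ (fun j => ?_) k
          · simp
          · simp
      right_inv := by
        rintro ((_ | r) | j)
        · simp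
        · simp
        · simp }
  have hsub : Good d ((p + 1) * (2 * α) / (d : ℝ) ^ 2) (wa μ0 α) (wb μ0 η α) ⊆
      {x : Fin d → ℝ | x ∈ DD d 1 ∧ Realizable (G (b + 2)) (Finset.univ.val.map (tup x))} := by
    intro x hx
    refine ⟨hx.1, ?_⟩
    refine real_good hη hα0 (by linarith) hμ0 hμ1 hstar (G (b + 2)) b (e.trans E) ?_ hd
      (by omega) hx
    intro u v huv hadj
    obtain ⟨a, a', ha, ha'⟩ := he u v huv hadj
    refine ⟨q a, q a', ?_, ?_⟩
    · rw [Equiv.trans_apply, ha]
      rfl
    · rw [Equiv.trans_apply, ha']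
      rfl
  set T := {x : Fin d → ℝ | x ∈ DD d 1 ∧ Realizable (G (b + 2)) (Finset.univ.val.map (tup x))}
    with hT
  have hTD : T ⊆ DD d 1 := fun x hx => hx.1
  have l1 := measureReal_mono (μ := volume) hsub (fin_ne d _ hTD)
  have l2 := measureReal_mono (μ := volume) hTD (DD_lt_top d).ne
  rw [Real.dist_eq, abs_sub_comm, abs_of_nonneg (by
    rw [sub_nonneg, div_le_one hDpos]
    exact l2)]
  have l3 : 1 - 2 * ((p + 1) * (2 * α)) - ε / 4 ≤ volume.real T / volume.real (DD d 1) := by
    rw [le_div_iff₀ hDpos]
    exact hg.trans l1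
  nlinarith

end Pool.Agent.Results.MP_0d7d6c_co.SuspensionLimit
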